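import Mathlib

set_option autoImplicit false

namespace Pool.Agent.Results.MP_611bc7_al.TwistedReal

universe u v w

section Defs

variable (k : Type u) [Field k]

/-- The free commutative associative (non-unital) `k`-algebra `F(X)` on a finite set `X ⊂ ℕ`: the
polynomials in the variables `X` with zero constant term. -/
def F (X : Finset ℕ) : NonUnitalSubalgebra k (MvPolynomial X k) where
  carrier := {p | MvPolynomial.constantCoeff p = 0}
  add_mem' := by
    intro a b ha hb
    rw [Set.mem_ofPred_eq] at *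
    rw [map_add, ha, hb, add_zero]
  zero_mem' := map_zero _
  mul_mem' := by
    intro a b ha hb
    rw [Set.mem_ofPred_eq] at *
    rw [map_mul, ha, zero_mul]
  smul_mem' := by
    intro r a ha
    rw [Set.mem_ofPred_eq] at *
    rw [MvPolynomial.constantCoeff_smul, ha, smul_zero]

variable {k}

lemma mem_F {X : Finset ℕ} (p : MvPolynomial X k) :
    p ∈ F k X ↔ MvPolynomial.constantCoeff p = 0 := Iff.rfl

variable (k) in
/-- the type of elements of `F(X)` -/
abbrev Fr (X : Finset ℕ) : Type u := F k X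

variable (k) in
/-- A commutative associative, not necessarily unital, `k`-algebra (an object of `Θ`). -/
structure CommAlg where
  /-- the underlying set -/
  carrier : Type v
  [ring : NonUnitalCommRing carrier]
  [module : Module k carrier]
  [tower : IsScalarTower k carrier carrier]
  [comm : SMulCommClass k carrier carrier]

attribute [instance] CommAlg.ring CommAlg.module CommAlg.tower CommAlg.comm

variable (k) in
/-- homomorphisms `F(X) → F(Y)` -/
abbrev Mor (X Y : Finset ℕ) : Type u := Fr k X →ₙₐ[k] Fr k Y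

/-- homomorphisms `F(X) → H` -/
abbrev HomTo (X : Finset ℕ) (H : CommAlg.{u, v} k) : Type (max u v) := Fr k X →ₙₐ[k] H.carrier

/-- the kernel congruence of a homomorphism -/
def Ker {X : Finset ℕ} {H : CommAlg.{u, v} k} (ν : HomTo X H) : Set (Fr k X × Fr k X) :=
  {p | ν p.1 = ν p.2}

/-- `T''_H` -/
def closure {X : Finset ℕ} (H : CommAlg.{u, v} k) (T : Set (Fr k X × Fr k X)) :
    Set (Fr k X × Fr k X) :=
  ⋂ (ν : HomTo X H) (_ : T ⊆ Ker ν), Ker ν

/-- `T` is `H`-closed. -/
def IsClosedFor {X : Finset ℕ} (H : CommAlg.{u, v} k) (T : Set (Fr k X × Fr k X)) : Prop :=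
  T = closure H T

/-- `Cl_H(F(X))` -/
def Cl (H : CommAlg.{u, v} k) (X : Finset ℕ) : Type u :=
  {T : Set (Fr k X × Fr k X) // IsClosedFor H T}

/-- `H₁` and `H₂` are geometrically equivalent. -/
def GeometricallyEquivalent (H₁ H₂ : CommAlg.{u, v} k) : Prop :=
  ∀ (X : Finset ℕ) (T : Set (Fr k X × Fr k X)), IsClosedFor H₁ T ↔ IsClosedFor H₂ T

variable (k) in
/-- An automorphism of the category `Θ⁰` of the free algebras `F(X)`, `X ⊂ ℕ` finite: a bijection on
objects and bijections on morphism sets, compatible with identities and composition. -/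
structure CatAut where
  obj : Finset ℕ ≃ Finset ℕ
  map : ∀ X Y : Finset ℕ, Mor k X Y ≃ Mor k (obj X) (obj Y)
  map_id : ∀ X, map X X (NonUnitalAlgHom.id k (Fr k X)) = NonUnitalAlgHom.id k (Fr k (obj X))
  map_comp : ∀ (X Y Z : Finset ℕ) (g : Mor k Y Z) (f : Mor k X Y),
    map X Z (NonUnitalAlgHom.comp g f) = NonUnitalAlgHom.comp (map Y Z g) (map X Y f)

/-- `τ μ₁ = τ μ₂`, where `τ` is the natural map to the quotient by the congruence `T`. -/
def Agree {X Y : Finset ℕ} (μ₁ μ₂ : Mor k X Y) (T : Set (Fr k Y × Fr k Y)) : Prop :=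
  ∀ f : Fr k X, (μ₁ f, μ₂ f) ∈ T

/-- `H₁` and `H₂` are automorphically equivalent. -/
def AutomorphicallyEquivalent (H₁ H₂ : CommAlg.{u, v} k) : Prop :=
  ∃ (Φ : CatAut k) (α : ∀ X : Finset ℕ, Cl H₁ X ≃ Cl H₂ (Φ.obj X)),
    ∀ (X₁ X₂ : Finset ℕ) (μ₁ μ₂ : Mor k X₁ X₂) (T : Cl H₁ X₂),
      Agree μ₁ μ₂ T.1 ↔ Agree (Φ.map X₁ X₂ μ₁) (Φ.map X₁ X₂ μ₂) (α X₂ T).1

end Defs

/-! ### `F(X)` is free -/

section Free

variable {k : Type u} [Field k] {H : Type v} [NonUnitalCommRing H] [Module k H]
  [IsScalarTower k H H] [SMulCommClass k H H] {X : Finset ℕ}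

/-- the generators -/
noncomputable def gen (x : X) : F k X :=
  ⟨MvPolynomial.X x, (mem_F _).mpr (MvPolynomial.constantCoeff_X _ x)⟩

lemma fst_aeval (g : X → H) (p : MvPolynomial X k) :
    (MvPolynomial.aeval (fun x => (g x : Unitization k H)) p).fst =
      MvPolynomial.constantCoeff p := by
  induction p using MvPolynomial.induction_on with
  | C r => simp [Unitization.algebraMap_eq_inl]
  | add p q hp hq => simp [hp, hq]
  | mul_X p i hp => simp

/-- the homomorphism with given values on the generators -/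
noncomputable def lift (g : X → H) : F k X →ₙₐ[k] H where
  toFun p := (MvPolynomial.aeval (fun x => (g x : Unitization k H)) (p : MvPolynomial X k)).snd
  map_smul' r p := by simp
  map_zero' := by simp
  map_add' p q := by simp
  map_mul' p q := by
    have hp := fst_aeval g (p : MvPolynomial X k)
    have hq := fst_aeval g (q : MvPolynomial X k)
    rw [(mem_F _).mp p.2] at hp
    rw [(mem_F _).mp q.2] at hq
    simp [hp, hq]

lemma lift_gen (g : X → H) (x : X) : lift g (gen x : F k X) = g x := by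
  simp [lift, gen]

end Free

/-! ### Twisting by an automorphism of `k` -/

section Twist

variable {k : Type u} [Field k]

/-- the semilinear automorphism of `F(X)` induced by an automorphism of `k` -/
noncomputable def tw (σ : k ≃+* k) (X : Finset ℕ) (p : F k X) : F k X :=
  ⟨MvPolynomial.map (σ : k →+* k) (p : MvPolynomial X k), by
    rw [mem_F, MvPolynomial.constantCoeff_map, (mem_F _).mp p.2, map_zero]⟩

lemma tw_add (σ : k ≃+* k) (X : Finset ℕ) (p q : F k X) :
    tw σ X (p + q) = tw σ X p + tw σ X q := Subtype.ext (by simp [tw])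

lemma tw_mul (σ : k ≃+* k) (X : Finset ℕ) (p q : F k X) :
    tw σ X (p * q) = tw σ X p * tw σ X q := Subtype.ext (by simp [tw])

lemma tw_zero (σ : k ≃+* k) (X : Finset ℕ) : tw σ X 0 = 0 := Subtype.ext (by simp [tw])

lemma tw_smul (σ : k ≃+* k) (X : Finset ℕ) (r : k) (p : F k X) :
    tw σ X (r • p) = σ r • tw σ X p := Subtype.ext (by simp [tw, MvPolynomial.smul_eq_C_mul])

lemma tw_symm_tw (σ : k ≃+* k) (X : Finset ℕ) (p : F k X) : tw σ.symm X (tw σ X p) = p := by
  apply Subtype.ext
  simp only [tw]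
  rw [MvPolynomial.map_map]
  have : (σ.symm : k →+* k).comp (σ : k →+* k) = RingHom.id k := by
    ext x
    simp
  rw [this, MvPolynomial.map_id]

lemma tw_tw_symm (σ : k ≃+* k) (X : Finset ℕ) (p : F k X) : tw σ X (tw σ.symm X p) = p := by
  have h := tw_symm_tw σ.symm X p
  rwa [RingEquiv.symm_symm] at h

/-- conjugation of a homomorphism by the semilinear automorphisms -/
noncomputable def twHom (σ : k ≃+* k) {X Y : Finset ℕ} (μ : F k X →ₙₐ[k] F k Y) :
    F k X →ₙₐ[k] F k Y where
  toFun p := tw σ Y (μ (tw σ.symm X p))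
  map_smul' r p := by
    rw [tw_smul, map_smul, tw_smul, RingEquiv.apply_symm_apply]
    rfl
  map_zero' := by rw [tw_zero, map_zero, tw_zero]
  map_add' p q := by rw [tw_add, map_add, tw_add]
  map_mul' p q := by rw [tw_mul, map_mul, tw_mul]

lemma twHom_apply (σ : k ≃+* k) {X Y : Finset ℕ} (μ : F k X →ₙₐ[k] F k Y) (p : F k X) :
    twHom σ μ p = tw σ Y (μ (tw σ.symm X p)) := rfl

/-- the automorphism of the category `Θ⁰` -/
noncomputable def twCat (σ : k ≃+* k) : CatAut k where
  obj := Equiv.refl _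
  map X Y :=
    { toFun := fun μ => twHom σ μ
      invFun := fun μ => twHom σ.symm μ
      left_inv := fun μ => by
        apply NonUnitalAlgHom.ext
        intro p
        show twHom σ.symm (twHom σ μ) p = μ p
        rw [twHom_apply, twHom_apply, RingEquiv.symm_symm, tw_symm_tw, tw_symm_tw]
      right_inv := fun μ => by
        apply NonUnitalAlgHom.ext
        intro p
        show twHom σ (twHom σ.symm μ) p = μ p
        rw [twHom_apply, twHom_apply, RingEquiv.symm_symm, tw_tw_symm, tw_tw_symm] }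
  map_id X := by
    apply NonUnitalAlgHom.ext
    intro (p : F k X)
    exact tw_tw_symm σ X p
  map_comp X Y Z g f := by
    apply NonUnitalAlgHom.ext
    intro (p : F k X)
    have h : twHom σ (g.comp f) p = twHom σ g (twHom σ f p) := by
      rw [twHom_apply, twHom_apply, twHom_apply, tw_symm_tw]
      rfl
    exact h

variable {H₁ H₂ : CommAlg.{u, v} k}

lemma closed_tw (σ : k ≃+* k) (e : H₁.carrier ≃ H₂.carrier) (hadd : ∀ x y, e (x + y) = e x + e y)
    (hmul : ∀ x y, e (x * y) = e x * e y) (hsmul : ∀ (r : k) x, e (r • x) = σ r • e x)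
    {X : Finset ℕ} (T : Set (F k X × F k X)) (hT : IsClosedFor H₁ T) :
    IsClosedFor H₂ {p : F k X × F k X | (tw σ.symm X p.1, tw σ.symm X p.2) ∈ T} := by
  apply subset_antisymm
  · intro p hp
    unfold closure
    simp only [Set.mem_iInter]
    intro ν hν
    exact hν hp
  · intro p hp
    show (tw σ.symm X p.1, tw σ.symm X p.2) ∈ T
    rw [hT]
    unfold closure
    simp only [Set.mem_iInter]
    intro ν hν
    have hzero : e 0 = 0 := by
      have := hadd 0 0
      rw [add_zero] at this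
      exact left_eq_add.mp this
    let ν' : HomTo X H₂ :=
      { toFun := fun p => e (ν (tw σ.symm X p))
        map_smul' := fun r p => by
          show e (ν (tw σ.symm X (r • p))) = r • e (ν (tw σ.symm X p))
          rw [tw_smul, map_smul, hsmul, RingEquiv.apply_symm_apply]
        map_zero' := by
          show e (ν (tw σ.symm X 0)) = 0
          rw [tw_zero, map_zero, hzero]
        map_add' := fun p q => by
          show e (ν (tw σ.symm X (p + q))) = e (ν (tw σ.symm X p)) + e (ν (tw σ.symm X q))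
          rw [tw_add, map_add, hadd]
        map_mul' := fun p q => by
          show e (ν (tw σ.symm X (p * q))) = e (ν (tw σ.symm X p)) * e (ν (tw σ.symm X q))
          rw [tw_mul, map_mul, hmul] }
    have h1 : {p : F k X × F k X | (tw σ.symm X p.1, tw σ.symm X p.2) ∈ T} ⊆ Ker ν' := by
      intro q hq
      show e (ν (tw σ.symm X q.1)) = e (ν (tw σ.symm X q.2))
      exact congrArg e (hν hq)
    unfold closure at hp
    simp only [Set.mem_iInter] at hp
    exact e.injective (hp ν' h1)

/-- the bijection of closed sets -/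
noncomputable def twCl (σ : k ≃+* k) (e : H₁.carrier ≃ H₂.carrier) (hadd : ∀ x y, e (x + y) = e x + e y)
    (hmul : ∀ x y, e (x * y) = e x * e y) (hsmul : ∀ (r : k) x, e (r • x) = σ r • e x)
    (X : Finset ℕ) : Cl H₁ X ≃ Cl H₂ X where
  toFun T := ⟨{p | (tw σ.symm X p.1, tw σ.symm X p.2) ∈ T.1},
    closed_tw σ e hadd hmul hsmul T.1 T.2⟩
  invFun T := ⟨{p | (tw σ X p.1, tw σ X p.2) ∈ T.1}, by
    have hadd' : ∀ x y, e.symm (x + y) = e.symm x + e.symm y := fun x y => by
      rw [Equiv.symm_apply_eq, hadd, e.apply_symm_apply, e.apply_symm_apply]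
    have hmul' : ∀ x y, e.symm (x * y) = e.symm x * e.symm y := fun x y => by
      rw [Equiv.symm_apply_eq, hmul, e.apply_symm_apply, e.apply_symm_apply]
    have hsmul' : ∀ (r : k) x, e.symm (r • x) = σ.symm r • e.symm x := fun r x => by
      rw [Equiv.symm_apply_eq, hsmul, e.apply_symm_apply, RingEquiv.apply_symm_apply]
    have h := closed_tw σ.symm e.symm hadd' hmul' hsmul' T.1 T.2
    rwa [RingEquiv.symm_symm] at h⟩
  left_inv T := by
    apply Subtype.ext
    apply Set.ext
    intro p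
    show (tw σ.symm X (tw σ X p.1), tw σ.symm X (tw σ X p.2)) ∈ T.1 ↔ p ∈ T.1
    rw [tw_symm_tw, tw_symm_tw]
  right_inv T := by
    apply Subtype.ext
    apply Set.ext
    intro p
    show (tw σ X (tw σ.symm X p.1), tw σ X (tw σ.symm X p.2)) ∈ T.1 ↔ p ∈ T.1
    rw [tw_tw_symm, tw_tw_symm]

/-- Twisting gives automorphically equivalent algebras. -/
theorem automorphicallyEquivalent_twist (σ : k ≃+* k) (e : H₁.carrier ≃ H₂.carrier)
    (hadd : ∀ x y, e (x + y) = e x + e y)
    (hmul : ∀ x y, e (x * y) = e x * e y) (hsmul : ∀ (r : k) x, e (r • x) = σ r • e x) :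
    AutomorphicallyEquivalent H₁ H₂ := by
  refine ⟨twCat σ, fun X => twCl σ e hadd hmul hsmul X, ?_⟩
  intro X₁ X₂ μ₁ μ₂ T
  constructor
  · intro h f
    show (tw σ.symm X₂ (tw σ X₂ (μ₁ (tw σ.symm X₁ f))),
      tw σ.symm X₂ (tw σ X₂ (μ₂ (tw σ.symm X₁ f)))) ∈ T.1
    rw [tw_symm_tw, tw_symm_tw]
    exact h _
  · intro h f
    have h1 : (tw σ.symm X₂ (tw σ X₂ (μ₁ (tw σ.symm X₁ (tw σ X₁ f)))),
      tw σ.symm X₂ (tw σ X₂ (μ₂ (tw σ.symm X₁ (tw σ X₁ f))))) ∈ T.1 := h (tw σ X₁ f)
    rwa [tw_symm_tw, tw_symm_tw, tw_symm_tw] at h1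

end Twist

/-! ### The example -/

section Example

/-- the field `ℚ(√2)` -/
abbrev k₀ : Type := QuadraticAlgebra ℚ 2 0

instance : Fact (∀ r : ℚ, r ^ 2 ≠ 2 + 0 * r) := ⟨fun r hr => by
  have h := irrational_sqrt_two
  apply h
  refine ⟨|r|, ?_⟩
  have h1 : (r : ℝ) ^ 2 = 2 := by
    have : r ^ 2 = 2 := by rw [hr]; ring
    exact_mod_cast this
  rw [← h1, Real.sqrt_sq_eq_abs]
  push_cast
  rfl⟩

/-- the embedding `ℚ(√2) → ℝ`, `√2 ↦ √2` -/
noncomputable def φ : k₀ →+* ℝ where
  toFun z := (z.re : ℝ) + (z.im : ℝ) * Real.sqrt 2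
  map_one' := by
    rw [QuadraticAlgebra.re_one, QuadraticAlgebra.im_one]
    simp
  map_zero' := by simp
  map_add' z w := by
    rw [QuadraticAlgebra.re_add, QuadraticAlgebra.im_add]
    push_cast
    ring
  map_mul' z w := by
    have h : Real.sqrt 2 * Real.sqrt 2 = 2 := Real.mul_self_sqrt (by norm_num)
    rw [QuadraticAlgebra.re_mul, QuadraticAlgebra.im_mul]
    push_cast
    linear_combination (-(z.im : ℝ) * w.im) * h

/-- the generator `√2` of `ℚ(√2)` -/
def om : k₀ := ⟨0, 1⟩

lemma φ_om : φ om = Real.sqrt 2 := by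
  show ((0 : ℚ) : ℝ) + ((1 : ℚ) : ℝ) * Real.sqrt 2 = Real.sqrt 2
  simp

/-- the nontrivial automorphism of `ℚ(√2)` -/
def σ : k₀ ≃+* k₀ := starRingAut

lemma σ_om : σ om = -om := by
  show star om = -om
  ext
  · rw [QuadraticAlgebra.re_star, QuadraticAlgebra.re_neg]
    simp [om]
  · rw [QuadraticAlgebra.im_star, QuadraticAlgebra.im_neg]

/-- `ℝ` as an algebra over `ℚ(√2)` via a ring homomorphism -/
def HH (_ψ : k₀ →+* ℝ) : Type := ℝ

noncomputable instance (ψ : k₀ →+* ℝ) : NonUnitalCommRing (HH ψ) :=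
  inferInstanceAs (NonUnitalCommRing ℝ)

noncomputable instance (ψ : k₀ →+* ℝ) : Module k₀ (HH ψ) := Module.compHom ℝ ψ

/-- the underlying real number -/
def val {ψ : k₀ →+* ℝ} (x : HH ψ) : ℝ := x

lemma val_smul {ψ : k₀ →+* ℝ} (r : k₀) (x : HH ψ) : val (r • x) = ψ r * val x := rfl
lemma val_mul {ψ : k₀ →+* ℝ} (x y : HH ψ) : val (x * y) = val x * val y := rfl
lemma val_zero {ψ : k₀ →+* ℝ} : val (0 : HH ψ) = 0 := rfl

instance (ψ : k₀ →+* ℝ) : IsScalarTower k₀ (HH ψ) (HH ψ) := ⟨fun r x y => by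
  show val ((r • x) * y) = val (r • (x * y))
  rw [val_mul, val_smul, val_smul, val_mul, mul_assoc]⟩

instance (ψ : k₀ →+* ℝ) : SMulCommClass k₀ (HH ψ) (HH ψ) := ⟨fun r x y => by
  show val (r • (x * y)) = val (x * (r • y))
  rw [val_mul, val_smul, val_smul, val_mul, mul_left_comm]⟩

/-- first algebra: `ℝ` with the usual action of `ℚ(√2)` -/
noncomputable def H₁ : CommAlg.{0, 0} k₀ where
  carrier := HH φ

/-- second algebra: `ℝ` with the conjugate action of `ℚ(√2)` -/
noncomputable def H₂ : CommAlg.{0, 0} k₀ where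
  carrier := HH (φ.comp (σ : k₀ →+* k₀))

lemma autEquiv : AutomorphicallyEquivalent H₁ H₂ := by
  refine automorphicallyEquivalent_twist σ (Equiv.refl ℝ) (fun x y => rfl) (fun x y => rfl) ?_
  intro r (x : ℝ)
  show φ r * x = φ (σ (σ r)) * x
  have : σ (σ r) = r := star_star r
  rw [this]

/-- the fourth root of two -/
noncomputable def h₀ : ℝ := Real.sqrt (Real.sqrt 2)

lemma h₀_sq : h₀ * h₀ = Real.sqrt 2 := Real.mul_self_sqrt (Real.sqrt_nonneg 2)

lemma h₀_ne : h₀ ≠ 0 := by
  unfold h₀
  rw [Real.sqrt_ne_zero (Real.sqrt_nonneg 2), Real.sqrt_ne_zero (by norm_num)]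
  norm_num

lemma not_geomEquiv : ¬ GeometricallyEquivalent H₁ H₂ := by
  intro h
  let X : Finset ℕ := {0}
  let x : F k₀ X := gen ⟨0, by simp [X]⟩
  let ν₁ : HomTo X H₁ := lift (fun _ => (h₀ : HH φ))
  have hx : ν₁ x = (h₀ : HH φ) := lift_gen _ _
  have h1 : IsClosedFor H₁ (Ker ν₁) := by
    apply subset_antisymm
    · intro p hp
      unfold closure
      simp only [Set.mem_iInter]
      intro ν hν
      exact hν hp
    · intro p hp
      unfold closure at hp
      simp only [Set.mem_iInter] at hp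
      exact hp ν₁ subset_rfl
  have h2 : IsClosedFor H₂ (Ker ν₁) := (h X (Ker ν₁)).mp h1
  have h3 : (x, (0 : F k₀ X)) ∈ Ker ν₁ := by
    rw [h2]
    unfold closure
    simp only [Set.mem_iInter]
    intro ν hν
    have h4 : (x * x * x, om • x) ∈ Ker ν₁ := by
      show ν₁ (x * x * x) = ν₁ (om • x)
      rw [map_mul, map_mul, map_smul, hx]
      show h₀ * h₀ * h₀ = φ om * h₀
      rw [h₀_sq, φ_om]
    have h5 : ν (x * x * x) = ν (om • x) := hν h4
    rw [map_mul, map_mul, map_smul] at h5
    obtain ⟨y, hy⟩ : ∃ y : ℝ, y = (ν x : HH (φ.comp (σ : k₀ →+* k₀))) := ⟨_, rfl⟩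
    have h6 : y * y * y = φ (σ om) * y := by
      rw [hy]
      exact h5
    rw [σ_om, map_neg, φ_om] at h6
    show ν x = ν 0
    rw [map_zero]
    have h7 : y * (y * y + Real.sqrt 2) = 0 := by
      linear_combination h6
    have h10 : y = 0 := by
      rcases mul_eq_zero.mp h7 with h8 | h8
      · exact h8
      · exfalso
        have h9 : 0 < Real.sqrt 2 := Real.sqrt_pos.mpr (by norm_num)
        nlinarith [mul_self_nonneg y]
    rw [hy] at h10
    exact h10
  have h4 : ν₁ x = ν₁ 0 := h3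
  rw [map_zero, hx] at h4
  exact h₀_ne h4

end Example

/-- **Over `k = ℚ(√2)` there are two commutative associative `k`-algebras which are automorphically
but not geometrically equivalent.** -/
theorem result :
    ∃ (k : Type) (_ : Field k) (_ : CharZero k) (H₁ H₂ : CommAlg.{0, 0} k),
      AutomorphicallyEquivalent H₁ H₂ ∧ ¬ GeometricallyEquivalent H₁ H₂ := by
  have hc : CharZero k₀ := charZero_of_injective_algebraMap (algebraMap ℚ k₀).injective
  exact ⟨k₀, inferInstance, hc, H₁, H₂, autEquiv, not_geomEquiv⟩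

end Pool.Agent.Results.MP_611bc7_al.TwistedReal
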